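import Mathlib
import Pool.Agent.V5helper32.CM.Stm2

/-!
# Job BV
-/

set_option autoImplicit false
set_option linter.unusedSectionVars false
set_option linter.unusedVariables false

namespace Pool.Agent.V5helper98.CM.BV

open Pool.Agent.V5helper32.CM MvPolynomial
open scoped TensorProduct

noncomputable section

/-! ### The action on polynomials -/

theorem act_X {n : ℕ} (g : Gl n) (i : Fin n) :
    act g (X i : MvPolynomial (Fin n) ℂ) = ∑ j, C ((g⁻¹).val i j) * X j := by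
  unfold act
  rw [aeval_X]

theorem act_mul {n : ℕ} (g h : Gl n) (f : MvPolynomial (Fin n) ℂ) :
    act (g * h) f = act g (act h f) := by
  have h1 : act (g * h) = (act g).comp (act h) := by
    apply MvPolynomial.algHom_ext
    intro i
    rw [AlgHom.comp_apply, act_X, act_X, map_sum, mul_inv_rev]
    have h2 : ∀ j, act g (C ((h⁻¹).val i j) * X j) =
        ∑ k, C ((h⁻¹).val i j * (g⁻¹).val j k) * X k := by
      intro j
      rw [map_mul, act_X, Finset.mul_sum]
      refine Finset.sum_congr rfl fun k _ => ?_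
      have h3 : act g (C ((h⁻¹).val i j)) = C ((h⁻¹).val i j) := (act g).commutes _
      rw [h3, ← mul_assoc, ← map_mul]
    rw [Finset.sum_congr rfl fun j _ => h2 j, Finset.sum_comm]
    refine Finset.sum_congr rfl fun k _ => ?_
    rw [← Finset.sum_mul, ← map_sum]
    congr 2
  rw [h1]
  rfl

theorem act_one {n : ℕ} (f : MvPolynomial (Fin n) ℂ) : act (1 : Gl n) f = f := by
  have h1 : act (1 : Gl n) = AlgHom.id ℂ _ := by
    apply MvPolynomial.algHom_ext
    intro i
    rw [act_X, inv_one, Units.val_one]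
    simp [Matrix.one_apply]
  rw [h1]
  rfl

/-- The constant coefficient. -/
def ε (n : ℕ) : MvPolynomial (Fin n) ℂ →ₐ[ℂ] ℂ := aeval fun _ => (0 : ℂ)

theorem ε_eq {n : ℕ} (f : MvPolynomial (Fin n) ℂ) : ε n f = constantCoeff f := by
  unfold ε
  rw [aeval_zero']
  rfl

theorem ε_X {n : ℕ} (i : Fin n) : ε n (X i) = 0 := by
  unfold ε
  rw [aeval_X]

theorem ε_act {n : ℕ} (g : Gl n) (f : MvPolynomial (Fin n) ℂ) : ε n (act g f) = ε n f := by
  have h1 : (ε n).comp (act g) = ε n := by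
    apply MvPolynomial.algHom_ext
    intro i
    rw [AlgHom.comp_apply, act_X, map_sum, ε_X]
    refine Finset.sum_eq_zero fun j _ => ?_
    rw [map_mul, ε_X, mul_zero]
  exact DFunLike.congr_fun h1 f

/-- Integrality of the variables over the invariants without constant term. -/
theorem X_pow_mem {n : ℕ} {W : Type} [Group W] [Fintype W] (ρ : W →* Gl n)
    (K : Ideal (MvPolynomial (Fin n) ℂ))
    (hK : ∀ f, (∀ w, act (ρ w) f = f) → constantCoeff f = 0 → f ∈ K) (i : Fin n) :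
    (X i : MvPolynomial (Fin n) ℂ) ^ Fintype.card W ∈ K := by
  classical
  let P : Polynomial (MvPolynomial (Fin n) ℂ) :=
    ∏ w : W, (Polynomial.X - Polynomial.C (act (ρ w) (X i)))
  have hP : P.Monic := Polynomial.monic_prod_of_monic _ _ fun w _ => Polynomial.monic_X_sub_C _
  have hdeg : P.natDegree = Fintype.card W := by
    rw [Polynomial.natDegree_prod_of_monic _ _ fun w _ => Polynomial.monic_X_sub_C _]
    simp [Finset.card_univ]
  have hroot : P.eval (X i) = 0 := by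
    rw [Polynomial.eval_prod]
    refine Finset.prod_eq_zero (Finset.mem_univ (1 : W)) ?_
    rw [map_one, act_one]
    simp
  have hinv : ∀ (v : W) (k : ℕ), act (ρ v) (P.coeff k) = P.coeff k := by
    intro v k
    have h1 : P.map (act (ρ v)).toRingHom = P := by
      rw [Polynomial.map_prod]
      have h2 : ∀ w : W, Polynomial.map (act (ρ v)).toRingHom
          (Polynomial.X - Polynomial.C (act (ρ w) (X i))) =
          Polynomial.X - Polynomial.C (act (ρ (v * w)) (X i)) := by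
        intro w
        rw [Polynomial.map_sub, Polynomial.map_X, Polynomial.map_C, map_mul, act_mul]
        rfl
      rw [Finset.prod_congr rfl fun w _ => h2 w]
      exact Fintype.prod_equiv (Equiv.mulLeft v) _ _ fun w => rfl
    have h2 := congrArg (fun Q => Polynomial.coeff Q k) h1
    simp only [Polynomial.coeff_map] at h2
    exact h2
  have hcst : ∀ k < Fintype.card W, constantCoeff (P.coeff k) = 0 := by
    intro k hk
    have h1 : P.map (constantCoeff : MvPolynomial (Fin n) ℂ →+* ℂ) =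
        Polynomial.X ^ Fintype.card W := by
      rw [Polynomial.map_prod]
      have h2 : ∀ w : W, Polynomial.map (constantCoeff : MvPolynomial (Fin n) ℂ →+* ℂ)
          (Polynomial.X - Polynomial.C (act (ρ w) (X i))) = Polynomial.X := by
        intro w
        rw [Polynomial.map_sub, Polynomial.map_X, Polynomial.map_C, ← ε_eq, ε_act, ε_X, map_zero,
          sub_zero]
      rw [Finset.prod_congr rfl fun w _ => h2 w, Finset.prod_const, Finset.card_univ]
    have h2 := congrArg (fun Q => Polynomial.coeff Q k) h1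
    simp only [Polynomial.coeff_map, Polynomial.coeff_X_pow] at h2
    rw [h2, if_neg hk.ne]
  have h1 := hP.as_sum
  have h2 := congrArg (fun Q => Polynomial.eval (X i) Q) h1
  simp only [hroot, Polynomial.eval_add, Polynomial.eval_pow, Polynomial.eval_X,
    Polynomial.eval_finsetSum, Polynomial.eval_mul, Polynomial.eval_C, hdeg] at h2
  have h3 : (X i : MvPolynomial (Fin n) ℂ) ^ Fintype.card W =
      -∑ k ∈ Finset.range (Fintype.card W), P.coeff k * X i ^ k :=
    eq_neg_of_add_eq_zero_left h2.symm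
  rw [h3]
  refine K.neg_mem (K.sum_mem fun k hk => ?_)
  exact K.mul_mem_right _ (hK _ (fun w => hinv w k) (hcst k (Finset.mem_range.1 hk)))

/-- Homogeneous polynomials of large degree. -/
theorem homog_mem {n N : ℕ} (K : Ideal (MvPolynomial (Fin n) ℂ))
    (hK : ∀ i, (X i : MvPolynomial (Fin n) ℂ) ^ N ∈ K) {M : ℕ} (hM : n * N < M)
    {f : MvPolynomial (Fin n) ℂ} (hf : f.IsHomogeneous M) : f ∈ K := by
  classical
  rw [f.as_sum]
  refine K.sum_mem fun s hs => ?_
  have h1 : ∑ i, s i = M := by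
    have h2 := hf (mem_support_iff.1 hs)
    rw [← h2, Finsupp.weight_apply, Finsupp.sum_fintype _ _ (fun i => by simp)]
    simp
  obtain ⟨i, hi⟩ : ∃ i, N ≤ s i := by
    by_contra hcon
    push Not at hcon
    have h3 : ∑ i, s i ≤ ∑ i : Fin n, N := Finset.sum_le_sum fun i _ => (hcon i).le
    rw [Finset.sum_const, Finset.card_univ, Fintype.card_fin, smul_eq_mul, h1] at h3
    omega
  have h2 : monomial s (coeff s f) = monomial (s - Finsupp.single i N) (coeff s f) * X i ^ N := by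
    rw [X_pow_eq_monomial, monomial_mul, mul_one]
    congr 1
    rw [tsub_add_cancel_of_le]
    rw [Finsupp.single_le_iff]
    exact hi
  rw [h2]
  exact K.mul_mem_left _ (hK i)

/-! ### Triangular decomposition -/

section tri

variable {n : ℕ} {W : Type} [Group W] [Fintype W] {ρ : W →* Gl n} {H : Type} [Ring H]
  [Algebra ℂ H] (T : Tri ρ H)

theorem mu_tmul (w : W) (f g : MvPolynomial (Fin n) ℂ) :
    mu T.i T.j T.u w (f ⊗ₜ[ℂ] g) = T.i f * T.u w * T.j g := by
  unfold mu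
  rw [TensorProduct.lift.tmul]
  rfl

/-- The map of the triangular decomposition. -/
def pl : (W → MvPolynomial (Fin n) ℂ ⊗[ℂ] MvPolynomial (Fin n) ℂ) →ₗ[ℂ] H :=
  ∑ w, mu T.i T.j T.u w ∘ₗ LinearMap.proj w

theorem pl_apply (q : W → MvPolynomial (Fin n) ℂ ⊗[ℂ] MvPolynomial (Fin n) ℂ) :
    pl T q = ∑ w, mu T.i T.j T.u w (q w) := by
  unfold pl
  rw [LinearMap.sum_apply]
  rfl

theorem pl_bij : Function.Bijective (pl T) := by
  have h := T.pbw
  have h1 : (fun q : W → MvPolynomial (Fin n) ℂ ⊗[ℂ] MvPolynomial (Fin n) ℂ =>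
      ∑ w, mu T.i T.j T.u w (q w)) = pl T := by
    funext q
    exact (pl_apply T q).symm
  rw [h1] at h
  exact h

/-- The linear equivalence of the triangular decomposition. -/
def ple : (W → MvPolynomial (Fin n) ℂ ⊗[ℂ] MvPolynomial (Fin n) ℂ) ≃ₗ[ℂ] H :=
  LinearEquiv.ofBijective (pl T) (pl_bij T)

theorem span_all (h : H) : h ∈ Submodule.span ℂ
    {x : H | ∃ (f : MvPolynomial (Fin n) ℂ) (w : W) (g : MvPolynomial (Fin n) ℂ),
      x = T.i f * T.u w * T.j g} := by
  obtain ⟨q, rfl⟩ := (pl_bij T).2 h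
  rw [pl_apply]
  refine Submodule.sum_mem _ fun w _ => ?_
  induction q w using TensorProduct.induction_on with
  | zero => rw [map_zero]; exact Submodule.zero_mem _
  | tmul f g =>
    rw [mu_tmul]
    exact Submodule.subset_span ⟨f, w, g, rfl⟩
  | add x y hx hy => rw [map_add]; exact Submodule.add_mem _ hx hy

variable {E : Type} [AddCommGroup E] [Module ℂ E] (ρE : Representation ℂ W E)

/-- The product of the constant coefficients. -/
def εε (n : ℕ) : MvPolynomial (Fin n) ℂ ⊗[ℂ] MvPolynomial (Fin n) ℂ →ₗ[ℂ] ℂ :=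
  TensorProduct.lift ((LinearMap.mul ℂ ℂ).compl₁₂ (ε n).toLinearMap (ε n).toLinearMap)

theorem εε_tmul (f g : MvPolynomial (Fin n) ℂ) : εε n (f ⊗ₜ[ℂ] g) = ε n f * ε n g := by
  unfold εε
  rw [TensorProduct.lift.tmul]
  rfl

/-- The projection to the group algebra, acting on `E`. -/
def pi₀ : (W → MvPolynomial (Fin n) ℂ ⊗[ℂ] MvPolynomial (Fin n) ℂ) →ₗ[ℂ] Module.End ℂ E :=
  ∑ w, (LinearMap.toSpanSingleton ℂ (Module.End ℂ E) (ρE w)) ∘ₗ εε n ∘ₗ LinearMap.proj w

theorem pi₀_apply (q : W → MvPolynomial (Fin n) ℂ ⊗[ℂ] MvPolynomial (Fin n) ℂ) :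
    pi₀ ρE q = ∑ w, εε n (q w) • ρE w := by
  unfold pi₀
  rw [LinearMap.sum_apply]
  rfl

def pi : H →ₗ[ℂ] Module.End ℂ E := pi₀ ρE ∘ₗ (ple T).symm.toLinearMap

theorem pi_gen (f : MvPolynomial (Fin n) ℂ) (w : W) (g : MvPolynomial (Fin n) ℂ) :
    pi T ρE (T.i f * T.u w * T.j g) = (ε n f * ε n g) • ρE w := by
  classical
  have h1 : ple T (Pi.single w (f ⊗ₜ[ℂ] g)) = T.i f * T.u w * T.j g := by
    change pl T _ = _
    rw [pl_apply, Finset.sum_eq_single w]
    · rw [Pi.single_eq_same, mu_tmul]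
    · intro v _ hv
      rw [Pi.single_eq_of_ne hv, map_zero]
    · intro h
      exact absurd (Finset.mem_univ _) h
  have h2 : (ple T).symm (T.i f * T.u w * T.j g) = Pi.single w (f ⊗ₜ[ℂ] g) := by
    rw [← h1, LinearEquiv.symm_apply_apply]
  change pi₀ ρE ((ple T).symm (T.i f * T.u w * T.j g)) = _
  rw [h2, pi₀_apply, Finset.sum_eq_single w]
  · rw [Pi.single_eq_same, εε_tmul]
  · intro v _ hv
    rw [Pi.single_eq_of_ne hv, map_zero, zero_smul]
  · intro h
    exact absurd (Finset.mem_univ _) h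

/-- Induction over the generators. -/
theorem ind {P : H → Prop} (h0 : P 0) (hadd : ∀ x y, P x → P y → P (x + y))
    (hsm : ∀ (c : ℂ) x, P x → P (c • x))
    (hg : ∀ (f : MvPolynomial (Fin n) ℂ) (w : W) (g : MvPolynomial (Fin n) ℂ),
      P (T.i f * T.u w * T.j g)) (h : H) : P h := by
  refine Submodule.span_induction (p := fun x _ => P x) ?_ h0 (fun x y _ _ => hadd x y)
    (fun c x _ => hsm c x) (span_all T h)
  rintro x ⟨f, w, g, rfl⟩
  exact hg f w g

theorem j_mul_u (g : MvPolynomial (Fin n) ℂ) (w : W) :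
    T.j g * T.u w = T.u w * T.j (act (dualG (ρ w⁻¹)) g) := by
  have h1 := T.uj w⁻¹ g
  calc T.j g * T.u w = T.u w * (T.u w⁻¹ * T.j g) * T.u w := by
        rw [← mul_assoc, ← map_mul, mul_inv_cancel, map_one, one_mul]
    _ = T.u w * T.j (act (dualG (ρ w⁻¹)) g) * (T.u w⁻¹ * T.u w) := by
        rw [h1, ← mul_assoc, mul_assoc (T.u w * _)]
    _ = _ := by rw [← map_mul, inv_mul_cancel, map_one, mul_one]

theorem pi_mul_u (h : H) (v : W) : pi T ρE (h * T.u v) = pi T ρE h * ρE v := by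
  refine ind T (P := fun h => pi T ρE (h * T.u v) = pi T ρE h * ρE v) ?_ ?_ ?_ ?_ h
  · rw [zero_mul, map_zero, zero_mul]
  · intro x y hx hy
    rw [add_mul, map_add, map_add, add_mul, hx, hy]
  · intro c x hx
    rw [smul_mul_assoc, map_smul, map_smul, smul_mul_assoc, hx]
  · intro f w g
    have h1 : T.i f * T.u w * T.j g * T.u v =
        T.i f * T.u (w * v) * T.j (act (dualG (ρ v⁻¹)) g) := by
      rw [mul_assoc, j_mul_u, ← mul_assoc, mul_assoc (T.i f), ← map_mul]
    rw [h1, pi_gen, pi_gen, ε_act, map_mul, smul_mul_assoc]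

theorem pi_mul_j (h : H) (b : Fin n) : pi T ρE (h * T.j (X b)) = 0 := by
  refine ind T (P := fun h => pi T ρE (h * T.j (X b)) = 0) ?_ ?_ ?_ ?_ h
  · rw [zero_mul, map_zero]
  · intro x y hx hy
    rw [add_mul, map_add, hx, hy, add_zero]
  · intro c x hx
    rw [smul_mul_assoc, map_smul, hx, smul_zero]
  · intro f w g
    rw [mul_assoc, ← map_mul, pi_gen, map_mul, ε_X, mul_zero, mul_zero, zero_smul]

theorem pi_i_mul (f₀ : MvPolynomial (Fin n) ℂ) (h : H) :
    pi T ρE (T.i f₀ * h) = ε n f₀ • pi T ρE h := by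
  refine ind T (P := fun h => pi T ρE (T.i f₀ * h) = ε n f₀ • pi T ρE h) ?_ ?_ ?_ ?_ h
  · rw [mul_zero, map_zero, smul_zero]
  · intro x y hx hy
    rw [mul_add, map_add, map_add, smul_add, hx, hy]
  · intro c x hx
    rw [mul_smul_comm, map_smul, map_smul, smul_comm, hx]
  · intro f w g
    rw [← mul_assoc, ← mul_assoc, ← map_mul, pi_gen, pi_gen, map_mul, smul_smul, mul_assoc]

theorem pi_one : pi T ρE 1 = 1 := by
  have h1 := pi_gen T ρE 1 1 1
  rw [map_one, map_one, map_one, map_one, map_one, one_mul, one_mul, one_mul, one_smul] at h1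
  exact h1

/-- The map to `E`. -/
def Th : H ⊗[ℂ] E →ₗ[ℂ] E := TensorProduct.lift (pi T ρE)

theorem Th_tmul (h : H) (e : E) : Th T ρE (h ⊗ₜ[ℂ] e) = pi T ρE h e := by
  unfold Th
  rw [TensorProduct.lift.tmul]

end tri

/-! ### The relations -/

section rel

variable {n : ℕ} {W : Type} [Group W] [Fintype W] {ρ : W →* Gl n} {H : Type} [Ring H]
  [Algebra ℂ H] (T : Tri ρ H) {E : Type} [AddCommGroup E] [Module ℂ E]
  (ρE : Representation ℂ W E) {ys : Set H}

/-- The invariants without constant term. -/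
abbrev FS : Set H := {h | ∃ f : MvPolynomial (Fin n) ℂ, (∀ w, act (ρ w) f = f) ∧
  constantCoeff f = 0 ∧ h = T.i f}

/-- The relations. -/
abbrev RR (ys : Set H) : Submodule H (H ⊗[ℂ] E) := BVrel H T.u ys (FS T) ρE

variable (hys : Submodule.span ℂ ys = Submodule.span ℂ (Set.range fun b => T.j (X b)))

include hys

theorem pi_mul_y (h y : H) (hy : y ∈ ys) : pi T ρE (h * y) = 0 := by
  let K : Submodule ℂ H :=
    { carrier := {y | pi T ρE (h * y) = 0}
      add_mem' := by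
        intro x y hx hy
        change pi T ρE (h * (x + y)) = 0
        rw [mul_add, map_add, hx, hy, add_zero]
      zero_mem' := by
        change pi T ρE (h * 0) = 0
        rw [mul_zero, map_zero]
      smul_mem' := by
        intro c x hx
        change pi T ρE (h * (c • x)) = 0
        rw [mul_smul_comm, map_smul, hx, smul_zero] }
  have h1 : Submodule.span ℂ (Set.range fun b => T.j (X b)) ≤ K := by
    rw [Submodule.span_le]
    rintro _ ⟨b, rfl⟩
    exact pi_mul_j T ρE h b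
  have h2 : y ∈ Submodule.span ℂ ys := Submodule.subset_span hy
  rw [hys] at h2
  exact h1 h2

theorem Th_rel {x : H ⊗[ℂ] E} (hx : x ∈ RR T ρE ys) : Th T ρE x = 0 := by
  let K : Submodule H (H ⊗[ℂ] E) :=
    { carrier := {x | ∀ h : H, Th T ρE (h • x) = 0}
      add_mem' := by
        intro x y hx hy h
        rw [smul_add, map_add, hx h, hy h, add_zero]
      zero_mem' := by
        intro h
        rw [smul_zero, map_zero]
      smul_mem' := by
        intro c x hx h
        rw [smul_smul]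
        exact hx (h * c) }
  have h1 : RR T ρE ys ≤ K := by
    refine Submodule.span_le.2 ?_
    rintro m ((⟨y, hy, e, rfl⟩ | ⟨w, e, rfl⟩) | ⟨f, ⟨f, hf1, hf2, rfl⟩, e, rfl⟩) h
    · rw [TensorProduct.smul_tmul', smul_eq_mul, Th_tmul, pi_mul_y T ρE hys h y hy]
      rfl
    · rw [smul_sub, TensorProduct.smul_tmul', TensorProduct.smul_tmul', smul_eq_mul, smul_eq_mul,
        map_sub, Th_tmul, Th_tmul, pi_mul_u, mul_one, sub_eq_zero]
      rfl
    · rw [TensorProduct.smul_tmul', smul_eq_mul, Th_tmul, ← T.ci f hf1, pi_i_mul, ε_eq, hf2,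
        zero_smul]
      rfl
  have h2 := h1 hx 1
  rwa [one_smul] at h2

theorem y_mem (b : Fin n) (e : E) : T.j (X b) ⊗ₜ[ℂ] e ∈ RR T ρE ys := by
  let K : Submodule ℂ H :=
    { carrier := {y | y ⊗ₜ[ℂ] e ∈ RR T ρE ys}
      add_mem' := by
        intro x y hx hy
        change (x + y) ⊗ₜ[ℂ] e ∈ RR T ρE ys
        rw [TensorProduct.add_tmul]
        exact Submodule.add_mem _ hx hy
      zero_mem' := by
        change (0 : H) ⊗ₜ[ℂ] e ∈ RR T ρE ys
        rw [TensorProduct.zero_tmul]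
        exact Submodule.zero_mem _
      smul_mem' := by
        intro c x hx
        change (c • x) ⊗ₜ[ℂ] e ∈ RR T ρE ys
        rw [← TensorProduct.smul_tmul']
        exact Submodule.smul_of_tower_mem _ c hx }
  have h1 : Submodule.span ℂ ys ≤ K := by
    rw [Submodule.span_le]
    intro y hy
    exact Submodule.subset_span (Or.inl (Or.inl ⟨y, hy, e, rfl⟩))
  rw [hys] at h1
  exact h1 (Submodule.subset_span ⟨b, rfl⟩)

theorem J_mem {h : H} (hh : h ∈ Submodule.span H (Set.range fun b => T.j (X b))) (e : E) :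
    h ⊗ₜ[ℂ] e ∈ RR T ρE ys := by
  refine Submodule.span_induction (p := fun h _ => h ⊗ₜ[ℂ] e ∈ RR T ρE ys) ?_ ?_ ?_ ?_ hh
  · rintro _ ⟨b, rfl⟩
    exact y_mem T ρE hys b e
  · rw [TensorProduct.zero_tmul]
    exact Submodule.zero_mem _
  · intro x y _ _ hx hy
    rw [TensorProduct.add_tmul]
    exact Submodule.add_mem _ hx hy
  · intro c x _ hx
    have h1 := Submodule.smul_mem (RR T ρE ys) c hx
    rwa [TensorProduct.smul_tmul'] at h1

omit hys in
theorem u_mem (w : W) (e : E) : T.u w ⊗ₜ[ℂ] e - (1 : H) ⊗ₜ[ℂ] ρE w e ∈ RR T ρE ys :=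
  Submodule.subset_span (Or.inl (Or.inr ⟨w, e, rfl⟩))

omit hys in
theorem lift_mem (a : MonoidAlgebra ℂ W) (e : E) :
    MonoidAlgebra.lift ℂ H W T.u a ⊗ₜ[ℂ] e - (1 : H) ⊗ₜ[ℂ] ρE.asAlgebraHom a e ∈
      RR T ρE ys := by
  induction a using MonoidAlgebra.induction_linear with
  | zero =>
    rw [map_zero, map_zero, TensorProduct.zero_tmul, LinearMap.zero_apply,
      TensorProduct.tmul_zero, sub_zero]
    exact Submodule.zero_mem _
  | add f g hf hg =>
    rw [map_add, map_add, TensorProduct.add_tmul, LinearMap.add_apply, TensorProduct.tmul_add,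
      add_sub_add_comm]
    exact Submodule.add_mem _ hf hg
  | single w r =>
    rw [MonoidAlgebra.lift_single, Representation.asAlgebraHom_single, LinearMap.smul_apply]
    have h1 : (r • T.u w) ⊗ₜ[ℂ] e - (1 : H) ⊗ₜ[ℂ] (r • ρE w e) =
        r • (T.u w ⊗ₜ[ℂ] e - (1 : H) ⊗ₜ[ℂ] ρE w e) := by
      rw [smul_sub, TensorProduct.smul_tmul', TensorProduct.tmul_smul]
    rw [h1]
    exact Submodule.smul_of_tower_mem _ r (u_mem T ρE w e)

theorem jg_mem (g : MvPolynomial (Fin n) ℂ) (e : E) :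
    T.j g ⊗ₜ[ℂ] e - ε n g • ((1 : H) ⊗ₜ[ℂ] e) ∈ RR T ρE ys := by
  have h1 : T.j g - ε n g • (1 : H) ∈ Submodule.span H (Set.range fun b => T.j (X b)) := by
    induction g using MvPolynomial.induction_on with
    | C a =>
      have h2 : T.j (C a) = a • (1 : H) := by
        have h3 : (C a : MvPolynomial (Fin n) ℂ) = algebraMap ℂ _ a := rfl
        rw [h3, AlgHom.commutes, Algebra.algebraMap_eq_smul_one]
      have h3 : ε n (C a) = a := by
        have h3 : (C a : MvPolynomial (Fin n) ℂ) = algebraMap ℂ _ a := rfl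
        rw [h3, AlgHom.commutes]
        rfl
      rw [h2, h3, sub_self]
      exact Submodule.zero_mem _
    | add f g hf hg =>
      rw [map_add, map_add, add_smul, add_sub_add_comm]
      exact Submodule.add_mem _ hf hg
    | mul_X f b hf =>
      rw [map_mul, map_mul, ε_X, mul_zero, zero_smul, sub_zero]
      exact Submodule.smul_mem _ (T.j f) (Submodule.subset_span ⟨b, rfl⟩)
  have h2 := J_mem T ρE hys h1 e
  rw [TensorProduct.sub_tmul, ← TensorProduct.smul_tmul'] at h2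
  exact h2

theorem gen_mem (f : MvPolynomial (Fin n) ℂ) (w : W) (g : MvPolynomial (Fin n) ℂ) (e : E) :
    (T.i f * T.u w * T.j g) ⊗ₜ[ℂ] e - ε n g • (T.i f ⊗ₜ[ℂ] ρE w e) ∈ RR T ρE ys := by
  have h1 := Submodule.smul_mem (RR T ρE ys) (T.i f * T.u w) (jg_mem T ρE hys g e)
  have h2 := Submodule.smul_of_tower_mem (RR T ρE ys) (ε n g)
    (Submodule.smul_mem (RR T ρE ys) (T.i f) (u_mem (ys := ys) T ρE w e))
  have e1 : (T.i f * T.u w) • (T.j g ⊗ₜ[ℂ] e) = (T.i f * T.u w * T.j g) ⊗ₜ[ℂ] e := by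
    rw [TensorProduct.smul_tmul', smul_eq_mul]
  have e2 : (T.i f * T.u w) • (ε n g • ((1 : H) ⊗ₜ[ℂ] e)) =
      ε n g • ((T.i f * T.u w) ⊗ₜ[ℂ] e) := by
    rw [smul_comm, TensorProduct.smul_tmul' (T.i f * T.u w), smul_eq_mul, mul_one]
  have e3 : T.i f • (T.u w ⊗ₜ[ℂ] e) = (T.i f * T.u w) ⊗ₜ[ℂ] e := by
    rw [TensorProduct.smul_tmul', smul_eq_mul]
  have e4 : T.i f • ((1 : H) ⊗ₜ[ℂ] ρE w e) = T.i f ⊗ₜ[ℂ] ρE w e := by
    rw [TensorProduct.smul_tmul', smul_eq_mul, mul_one]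
  rw [smul_sub, e1, e2] at h1
  rw [smul_sub (T.i f), e3, e4, smul_sub] at h2
  have h3 := Submodule.add_mem _ h1 h2
  rw [sub_add_sub_cancel] at h3
  exact h3

end rel

/-! ### The grading -/

section grading

/-- Scaling of a homogeneous polynomial. -/
theorem scale_hom {n : ℕ} (z : ℂ) {k : ℕ} {f : MvPolynomial (Fin n) ℂ} (hf : f.IsHomogeneous k) :
    aeval (fun a => z • (X a : MvPolynomial (Fin n) ℂ)) f = z ^ k • f := by
  classical
  conv_lhs => rw [f.as_sum]
  conv_rhs => rw [f.as_sum]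
  rw [map_sum, Finset.smul_sum]
  refine Finset.sum_congr rfl fun s hs => ?_
  have h1 : ∑ i ∈ s.support, s i = k := by
    have h2 := hf (mem_support_iff.1 hs)
    rw [← h2, Finsupp.weight_apply, Finsupp.sum]
    simp
  rw [aeval_monomial]
  have h3 : (s.prod fun i e => (z • (X i : MvPolynomial (Fin n) ℂ)) ^ e) =
      z ^ k • s.prod fun i e => (X i : MvPolynomial (Fin n) ℂ) ^ e := by
    unfold Finsupp.prod
    rw [← h1, ← Finset.prod_pow_eq_pow_sum, ← Finset.prod_smul]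
    refine Finset.prod_congr rfl fun i _ => ?_
    change (z • (X i : MvPolynomial (Fin n) ℂ)) ^ (s i) =
      z ^ s i • (X i : MvPolynomial (Fin n) ℂ) ^ s i
    rw [smul_pow]
  rw [h3, mul_smul_comm]
  congr 1
  rw [monomial_eq]
  rfl

variable {n : ℕ} {W : Type} [Group W] [Fintype W] {D : Rd n W} {H : Type} [Ring H] [Algebra ℂ H]
  (Φ : Full D H)

theorem γ_i (z : ℂˣ) {k : ℕ} {f : MvPolynomial (Fin n) ℂ} (hf : f.IsHomogeneous k) :
    Φ.γ z (Φ.T.i f) = (z : ℂ) ^ k • Φ.T.i f := by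
  have h1 : (Φ.γ z).comp Φ.T.i =
      Φ.T.i.comp (aeval fun a => (z : ℂ) • (X a : MvPolynomial (Fin n) ℂ)) := by
    apply MvPolynomial.algHom_ext
    intro a
    rw [AlgHom.comp_apply, AlgHom.comp_apply, aeval_X, map_smul, Φ.γi]
  have h2 := DFunLike.congr_fun h1 f
  rw [AlgHom.comp_apply, AlgHom.comp_apply, scale_hom _ hf, map_smul] at h2
  exact h2

theorem γ_j (z : ℂˣ) {k : ℕ} {f : MvPolynomial (Fin n) ℂ} (hf : f.IsHomogeneous k) :
    Φ.γ z (Φ.T.j f) = ((z⁻¹ : ℂˣ) : ℂ) ^ k • Φ.T.j f := by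
  have h1 : (Φ.γ z).comp Φ.T.j =
      Φ.T.j.comp (aeval fun a => ((z⁻¹ : ℂˣ) : ℂ) • (X a : MvPolynomial (Fin n) ℂ)) := by
    apply MvPolynomial.algHom_ext
    intro a
    rw [AlgHom.comp_apply, AlgHom.comp_apply, aeval_X, map_smul, Φ.γj]
  have h2 := DFunLike.congr_fun h1 f
  rw [AlgHom.comp_apply, AlgHom.comp_apply, scale_hom _ hf, map_smul] at h2
  exact h2

/-- The part of degree `k`. -/
def Hk (k : ℤ) : Submodule ℂ H := Submodule.span ℂ
  {x : H | ∃ (f : MvPolynomial (Fin n) ℂ) (w : W) (g : MvPolynomial (Fin n) ℂ) (a b : ℕ),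
    f.IsHomogeneous a ∧ g.IsHomogeneous b ∧ (a : ℤ) - b = k ∧ x = Φ.T.i f * Φ.T.u w * Φ.T.j g}

theorem Hk_top (h : H) : h ∈ ⨆ k, Hk Φ k := by
  classical
  refine Submodule.span_le.2 ?_ (span_all Φ.T h)
  rintro _ ⟨f, w, g, rfl⟩
  rw [← sum_homogeneousComponent f, ← sum_homogeneousComponent g, map_sum, map_sum,
    Finset.sum_mul, Finset.sum_mul]
  refine Submodule.sum_mem _ fun a _ => ?_
  rw [Finset.mul_sum]
  refine Submodule.sum_mem _ fun b _ => ?_
  refine (le_iSup (Hk Φ) ((a : ℤ) - b)) (Submodule.subset_span ⟨_, w, _, a, b, ?_, ?_, rfl, rfl⟩)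
  · exact homogeneousComponent_isHomogeneous a f
  · exact homogeneousComponent_isHomogeneous b g

theorem Hk_eig (z : ℂˣ) (k : ℤ) {x : H} (hx : x ∈ Hk Φ k) :
    Φ.γ z x = ((z ^ k : ℂˣ) : ℂ) • x := by
  refine Submodule.span_induction (p := fun x _ => Φ.γ z x = ((z ^ k : ℂˣ) : ℂ) • x) ?_ ?_ ?_ ?_ hx
  · rintro _ ⟨f, w, g, a, b, hf, hg, hab, rfl⟩
    rw [map_mul, map_mul, γ_i Φ z hf, Φ.γu, γ_j Φ z hg, smul_mul_assoc, smul_mul_assoc,
      mul_smul_comm, smul_smul]
    congr 1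
    rw [← hab, zpow_sub, zpow_natCast, zpow_natCast, Units.val_mul, Units.val_pow_eq_pow_val,
      ← inv_pow, Units.val_pow_eq_pow_val]
  · rw [map_zero, smul_zero]
  · intro x y _ _ hx hy
    rw [map_add, hx, hy, smul_add]
  · intro c x _ hx
    rw [map_smul, hx, smul_comm]

/-- The unit two. -/
def two : ℂˣ := Units.mk0 2 two_ne_zero

theorem two_zpow_inj {k d : ℤ} (h : ((two ^ k : ℂˣ) : ℂ) = ((two ^ d : ℂˣ) : ℂ)) : k = d := by
  have h1 : ∀ k : ℤ, ((two ^ k : ℂˣ) : ℂ) = (((2 : ℝ) ^ k : ℝ) : ℂ) := by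
    intro k
    rw [Units.val_zpow_eq_zpow_val]
    change (2 : ℂ) ^ k = _
    push_cast
    rfl
  rw [h1, h1] at h
  have h2 : (2 : ℝ) ^ k = (2 : ℝ) ^ d := by exact_mod_cast h
  exact zpow_right_injective₀ (by norm_num) (by norm_num) h2

theorem mem_Hk {x : H} {d : ℤ} (hx : ∀ s, Φ.γ s x = ((s ^ d : ℂˣ) : ℂ) • x) : x ∈ Hk Φ d := by
  have h1 := Hk_top Φ x
  rw [iSup_split_single (Hk Φ) d] at h1
  obtain ⟨y, hy, y', hy', hyy⟩ := Submodule.mem_sup.1 h1
  let f : Module.End ℂ H := (Φ.γ two).toLinearMap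
  have h2 : y' ∈ Module.End.eigenspace f ((two ^ d : ℂˣ) : ℂ) := by
    rw [Module.End.mem_eigenspace_iff]
    change Φ.γ two y' = _
    have h3 : y' = x - y := by rw [← hyy, add_sub_cancel_left]
    rw [h3, map_sub, hx, Hk_eig Φ two d hy, smul_sub]
  have h3 : y' ∈ ⨆ μ, ⨆ (_ : μ ≠ ((two ^ d : ℂˣ) : ℂ)), Module.End.eigenspace f μ := by
    have h4 : (⨆ k, ⨆ (_ : k ≠ d), Hk Φ k) ≤
        ⨆ μ, ⨆ (_ : μ ≠ ((two ^ d : ℂˣ) : ℂ)), Module.End.eigenspace f μ := by
      refine iSup₂_le fun k hk => ?_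
      refine le_trans ?_ (le_iSup₂ (f := fun μ (_ : μ ≠ ((two ^ d : ℂˣ) : ℂ)) =>
        Module.End.eigenspace f μ) ((two ^ k : ℂˣ) : ℂ) (fun h => hk (two_zpow_inj h)))
      intro x hx
      rw [Module.End.mem_eigenspace_iff]
      exact Hk_eig Φ two k hx
    exact h4 hy'
  have h4 : y' = 0 := by
    have h5 := (Module.End.eigenspaces_iSupIndep f) ((two ^ d : ℂˣ) : ℂ)
    have h6 := h5.le_bot ⟨h2, h3⟩
    exact h6
  rw [← hyy, h4, add_zero]
  exact hy

variable {E : Type} [AddCommGroup E] [Module ℂ E] (ρE : Representation ℂ W E) {ys : Set H}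

/-- The elements of degree `m` of `H ⊗ E`, modulo the relations. -/
def Sm (ys : Set H) (m : ℤ) : Submodule ℂ (H ⊗[ℂ] E) :=
  (RR Φ.T ρE ys).restrictScalars ℂ ⊔ Submodule.span ℂ
    {t | ∃ (f : MvPolynomial (Fin n) ℂ) (k : ℕ) (e : E), f.IsHomogeneous k ∧ (k : ℤ) = m ∧
      t = Φ.T.i f ⊗ₜ[ℂ] e}

theorem rel_le (m : ℤ) {t : H ⊗[ℂ] E} (ht : t ∈ RR Φ.T ρE ys) : t ∈ Sm Φ ρE ys m :=
  (le_sup_left : (RR Φ.T ρE ys).restrictScalars ℂ ≤ Sm Φ ρE ys m) ht

theorem gen_Sm {f : MvPolynomial (Fin n) ℂ} {k : ℕ} (hf : f.IsHomogeneous k) {m : ℤ}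
    (hk : (k : ℤ) = m) (e : E) : Φ.T.i f ⊗ₜ[ℂ] e ∈ Sm Φ ρE ys m :=
  (le_sup_right : _ ≤ Sm Φ ρE ys m) (Submodule.subset_span ⟨f, k, e, hf, hk, rfl⟩)

theorem Sm_ind {m : ℤ} {P : H ⊗[ℂ] E → Prop} (hR : ∀ t ∈ RR Φ.T ρE ys, P t)
    (h0 : P 0) (hadd : ∀ x y, P x → P y → P (x + y)) (hsm : ∀ (c : ℂ) x, P x → P (c • x))
    (hg : ∀ (f : MvPolynomial (Fin n) ℂ) (k : ℕ) (e : E), f.IsHomogeneous k → (k : ℤ) = m →
      P (Φ.T.i f ⊗ₜ[ℂ] e)) {t : H ⊗[ℂ] E} (ht : t ∈ Sm Φ ρE ys m) : P t := by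
  obtain ⟨x, hx, y, hy, rfl⟩ := Submodule.mem_sup.1 ht
  refine hadd _ _ (hR x hx) ?_
  refine Submodule.span_induction (p := fun y _ => P y) ?_ h0 (fun x y _ _ => hadd x y)
    (fun c x _ => hsm c x) hy
  rintro _ ⟨f, k, e, hf, hk, rfl⟩
  exact hg f k e hf hk

theorem i_smul_Sm {f : MvPolynomial (Fin n) ℂ} {k : ℕ} (hf : f.IsHomogeneous k) {m : ℤ}
    {t : H ⊗[ℂ] E} (ht : t ∈ Sm Φ ρE ys m) : Φ.T.i f • t ∈ Sm Φ ρE ys (k + m) := by
  refine Sm_ind Φ ρE (P := fun t => Φ.T.i f • t ∈ Sm Φ ρE ys (k + m)) ?_ ?_ ?_ ?_ ?_ ht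
  · intro t ht
    exact rel_le Φ ρE _ (Submodule.smul_mem _ _ ht)
  · rw [smul_zero]
    exact Submodule.zero_mem _
  · intro x y hx hy
    rw [smul_add]
    exact Submodule.add_mem _ hx hy
  · intro c x hx
    rw [smul_comm]
    exact Submodule.smul_mem _ c hx
  · intro f' k' e hf' hk'
    rw [TensorProduct.smul_tmul', smul_eq_mul, ← map_mul]
    refine gen_Sm Φ ρE (hf.mul hf') ?_ e
    push_cast
    rw [hk']

variable (hys : Submodule.span ℂ ys = Submodule.span ℂ (Set.range fun b => Φ.T.j (X b)))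

include hys

theorem Hk_tmul {d : ℤ} {x : H} (hx : x ∈ Hk Φ d) (e : E) : x ⊗ₜ[ℂ] e ∈ Sm Φ ρE ys d := by
  refine Submodule.span_induction (p := fun x _ => x ⊗ₜ[ℂ] e ∈ Sm Φ ρE ys d) ?_ ?_ ?_ ?_ hx
  · rintro _ ⟨f, w, g, a, b, hf, hg, hab, rfl⟩
    have h1 := gen_mem Φ.T ρE hys f w g e
    have h2 : ε n g • (Φ.T.i f ⊗ₜ[ℂ] ρE w e) ∈ Sm Φ ρE ys d := by
      by_cases h0 : ε n g = 0
      · rw [h0, zero_smul]
        exact Submodule.zero_mem _
      · refine Submodule.smul_mem _ _ (gen_Sm Φ ρE hf ?_ _)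
        have hb : b = 0 := by
          rw [ε_eq] at h0
          have h3 := hg (d := 0) h0
          rw [← h3, map_zero]
        rw [← hab, hb]
        simp
    have h3 := Submodule.add_mem _ (rel_le Φ ρE d h1) h2
    rwa [sub_add_cancel] at h3
  · rw [TensorProduct.zero_tmul]
    exact Submodule.zero_mem _
  · intro x y _ _ hx hy
    rw [TensorProduct.add_tmul]
    exact Submodule.add_mem _ hx hy
  · intro c x _ hx
    rw [← TensorProduct.smul_tmul']
    exact Submodule.smul_mem _ c hx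

theorem central_smul {d : ℤ} {x : H} (hc : ∀ h, x * h = h * x) (hx : x ∈ Hk Φ d) {m : ℤ}
    {t : H ⊗[ℂ] E} (ht : t ∈ Sm Φ ρE ys m) : x • t ∈ Sm Φ ρE ys (m + d) := by
  refine Sm_ind Φ ρE (P := fun t => x • t ∈ Sm Φ ρE ys (m + d)) ?_ ?_ ?_ ?_ ?_ ht
  · intro t ht
    exact rel_le Φ ρE _ (Submodule.smul_mem _ _ ht)
  · rw [smul_zero]
    exact Submodule.zero_mem _
  · intro x y hx hy
    rw [smul_add]
    exact Submodule.add_mem _ hx hy
  · intro c x hx
    rw [smul_comm]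
    exact Submodule.smul_mem _ c hx
  · intro f k e hf hk
    have h1 : x • (Φ.T.i f ⊗ₜ[ℂ] e) = Φ.T.i f • (x ⊗ₜ[ℂ] e) := by
      rw [TensorProduct.smul_tmul', TensorProduct.smul_tmul', smul_eq_mul, smul_eq_mul, hc]
    rw [h1, ← hk]
    exact i_smul_Sm Φ ρE hf (Hk_tmul Φ ρE hys hx e)

theorem central_pow {d : ℤ} {x : H} (hc : ∀ h, x * h = h * x) (hx : x ∈ Hk Φ d) (N : ℕ) (e : E) :
    (x ^ N) ⊗ₜ[ℂ] e ∈ Sm Φ ρE ys (N * d) := by
  induction N with
  | zero =>
    rw [pow_zero, Nat.cast_zero, zero_mul]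
    have h1 : Φ.T.i 1 ⊗ₜ[ℂ] e ∈ Sm Φ ρE ys 0 :=
      gen_Sm Φ ρE (isHomogeneous_one (Fin n) ℂ) Nat.cast_zero e
    rwa [map_one] at h1
  | succ N ih =>
    have h1 := central_smul Φ ρE hys hc hx ih
    rw [TensorProduct.smul_tmul', smul_eq_mul, ← pow_succ'] at h1
    have h2 : ((N : ℤ) * d + d) = ((N + 1 : ℕ) : ℤ) * d := by
      push_cast
      ring
    rwa [h2] at h1

omit hys in
/-- Elements of negative or of large degree are relations. -/
theorem Sm_le {m : ℤ} (hm : m < 0 ∨ ((n * Fintype.card W : ℕ) : ℤ) < m) {t : H ⊗[ℂ] E}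
    (ht : t ∈ Sm Φ ρE ys m) : t ∈ RR Φ.T ρE ys := by
  refine Sm_ind Φ ρE (P := fun t => t ∈ RR Φ.T ρE ys) (fun t ht => ht) (Submodule.zero_mem _)
    (fun x y hx hy => Submodule.add_mem _ hx hy)
    (fun c x hx => Submodule.smul_of_tower_mem _ c hx) ?_ ht
  intro f k e hf hk
  rcases hm with hm | hm
  · exfalso
    omega
  let K : Ideal (MvPolynomial (Fin n) ℂ) :=
    { carrier := {f | Φ.T.i f ⊗ₜ[ℂ] e ∈ RR Φ.T ρE ys}
      add_mem' := by
        intro x y hx hy
        change Φ.T.i (x + y) ⊗ₜ[ℂ] e ∈ RR Φ.T ρE ys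
        rw [map_add, TensorProduct.add_tmul]
        exact Submodule.add_mem _ hx hy
      zero_mem' := by
        change Φ.T.i 0 ⊗ₜ[ℂ] e ∈ RR Φ.T ρE ys
        rw [map_zero, TensorProduct.zero_tmul]
        exact Submodule.zero_mem _
      smul_mem' := by
        intro c x hx
        change Φ.T.i (c * x) ⊗ₜ[ℂ] e ∈ RR Φ.T ρE ys
        have h1 := Submodule.smul_mem (RR Φ.T ρE ys) (Φ.T.i c) hx
        rw [TensorProduct.smul_tmul', smul_eq_mul, ← map_mul] at h1
        exact h1 }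
  refine homog_mem K (fun i => X_pow_mem D.ρ K (fun f hf1 hf2 => ?_) i)
    (M := k) (N := Fintype.card W) (by omega) hf
  exact Submodule.subset_span (Or.inr ⟨Φ.T.i f, ⟨f, hf1, hf2, rfl⟩, e, rfl⟩)

end grading

/-- **Job BV.** -/
theorem t_BV (hOM : S_OM) : S_BV := by
  classical
  intro n W _ _ D H _ _ Φ ys hys p hp E _ _ _ ρE hE hirr
  obtain ⟨-, -, hom3, -, -, hom6⟩ := hOM n W D H Φ
  obtain ⟨hom1, -⟩ := hOM n W D H Φ
  change BVfam H Φ.T.u ys (FS Φ.T) p ρE ↔ Fam Φ p ρE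
  have hcen : ∀ (z : Zc H) (h : H), (z : H) * h = h * z := fun z h =>
    (Subalgebra.mem_center_iff.1 z.2 h).symm
  -- action of a central element on the generators
  have hact : ∀ (z : Zc H) (a : MonoidAlgebra ℂ W), (z : H) - MonoidAlgebra.lift ℂ H W Φ.T.u a ∈
      Submodule.span H (Set.range fun b => Φ.T.j (X b)) → ∀ e : E,
      (z : H) ⊗ₜ[ℂ] e - (1 : H) ⊗ₜ[ℂ] ρE.asAlgebraHom a e ∈ RR Φ.T ρE ys := by
    intro z a hza e
    have h1 := J_mem Φ.T ρE hys hza e
    have h2 := lift_mem (ys := ys) Φ.T ρE a e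
    have h3 := Submodule.add_mem _ h1 h2
    rw [TensorProduct.sub_tmul, sub_add_sub_cancel] at h3
    exact h3
  constructor
  · intro hBV z a hz hza
    let A : Module.End ℂ E := ρE.asAlgebraHom a
    have hcomm : ∀ w x, A (ρE w x) = ρE w (A x) := by
      intro w x
      have h1 := hom3 z a hza (MonoidAlgebra.single w 1)
      have h2 := congrArg (fun b => ρE.asAlgebraHom b x) h1
      simp only [map_mul, Representation.asAlgebraHom_single_one] at h2
      exact h2
    obtain ⟨lam, hlam⟩ := Module.End.exists_eigenvalue A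
    have htop : Module.End.eigenspace A lam = ⊤ := by
      refine (hirr (Module.End.eigenspace A lam) fun w x hx => ?_).resolve_left hlam
      rw [Module.End.mem_eigenspace_iff] at hx ⊢
      rw [hcomm, hx, map_smul]
    have hAx : ∀ x, A x = lam • x := fun x => Module.End.mem_eigenspace_iff.1 (by
      rw [htop]
      trivial)
    obtain ⟨N, hN⟩ := hBV z
    obtain ⟨e, he⟩ := exists_ne (0 : E)
    let B := (H ⊗[ℂ] E) ⧸ BVrel H Φ.T.u ys (FS Φ.T) ρE
    let v : B := Submodule.Quotient.mk ((1 : H) ⊗ₜ[ℂ] e)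
    have h1 : ((z : H) - algebraMap ℂ H (p z)) • v = (lam - p z) • v := by
      have h2 := hact z a hza e
      have h3 : ((z : H) - algebraMap ℂ H (p z)) • v =
          Submodule.Quotient.mk (((z : H) - algebraMap ℂ H (p z)) • ((1 : H) ⊗ₜ[ℂ] e)) := rfl
      have h4 : (lam - p z) • v = Submodule.Quotient.mk ((lam - p z) • ((1 : H) ⊗ₜ[ℂ] e)) := rfl
      rw [h3, h4, Submodule.Quotient.eq]
      have h5 : ((z : H) - algebraMap ℂ H (p z)) • ((1 : H) ⊗ₜ[ℂ] e) -
          (lam - p z) • ((1 : H) ⊗ₜ[ℂ] e) =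
          (z : H) ⊗ₜ[ℂ] e - (1 : H) ⊗ₜ[ℂ] A e := by
        have a1 : ((z : H) - algebraMap ℂ H (p z)) • ((1 : H) ⊗ₜ[ℂ] e) =
            (z : H) ⊗ₜ[ℂ] e - (p z) • ((1 : H) ⊗ₜ[ℂ] e) := by
          rw [TensorProduct.smul_tmul', smul_eq_mul, mul_one, TensorProduct.sub_tmul,
            Algebra.algebraMap_eq_smul_one, TensorProduct.smul_tmul']
        have a2 : (lam - p z) • ((1 : H) ⊗ₜ[ℂ] e) =
            (1 : H) ⊗ₜ[ℂ] A e - (p z) • ((1 : H) ⊗ₜ[ℂ] e) := by
          rw [hAx, ← TensorProduct.tmul_smul, ← TensorProduct.tmul_smul, ← TensorProduct.tmul_sub,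
            ← sub_smul]
        rw [a1, a2, sub_sub_sub_cancel_right]
      rw [h5]
      exact h2
    have h2 : ∀ k : ℕ, ((z : H) - algebraMap ℂ H (p z)) ^ k • v = (lam - p z) ^ k • v := by
      intro k
      induction k with
      | zero => rw [pow_zero, pow_zero, one_smul, one_smul]
      | succ k ih => rw [pow_succ, mul_smul, h1, smul_comm, ih, smul_smul, pow_succ, mul_comm]
    have h3 := hN v
    rw [h2] at h3
    have h4 : (lam - p z) ^ N • ((1 : H) ⊗ₜ[ℂ] e) ∈ RR Φ.T ρE ys :=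
      (Submodule.Quotient.mk_eq_zero _).1 h3
    have h5 := Th_rel Φ.T ρE hys h4
    rw [map_smul, Th_tmul, pi_one, Module.End.one_apply, smul_eq_zero] at h5
    have h6 : lam = p z := sub_eq_zero.1 ((pow_eq_zero_iff (Nat.succ_ne_zero N)).1
      (by rw [pow_succ, h5.resolve_right he, zero_mul]))
    intro x
    rw [← h6]
    exact hAx x
  · intro hF
    let Ann : Ideal (Zc H) :=
      { carrier := {z | ∀ m : (H ⊗[ℂ] E) ⧸ BVrel H Φ.T.u ys (FS Φ.T) ρE, (z : H) • m = 0}
        add_mem' := by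
          intro x y hx hy m
          rw [Subalgebra.coe_add, add_smul, hx, hy, add_zero]
        zero_mem' := by
          intro m
          rw [Subalgebra.coe_zero, zero_smul]
        smul_mem' := by
          intro c x hx m
          rw [smul_eq_mul, Subalgebra.coe_mul, mul_smul, hx, smul_zero] }
    have hkill : ∀ x : Zc H, (∀ e : E, (x : H) ⊗ₜ[ℂ] e ∈ RR Φ.T ρE ys) → x ∈ Ann := by
      intro x hx m
      obtain ⟨t, rfl⟩ := Submodule.Quotient.mk_surjective _ m
      refine (Submodule.Quotient.mk_eq_zero _).2 ?_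
      change (x : H) • t ∈ RR Φ.T ρE ys
      induction t using TensorProduct.induction_on with
      | zero => rw [smul_zero]; exact Submodule.zero_mem _
      | tmul h e =>
        have h1 : (x : H) • (h ⊗ₜ[ℂ] e) = h • ((x : H) ⊗ₜ[ℂ] e) := by
          rw [TensorProduct.smul_tmul', TensorProduct.smul_tmul', smul_eq_mul, smul_eq_mul, hcen]
        rw [h1]
        exact Submodule.smul_mem _ _ (hx e)
      | add t t' ht ht' => rw [smul_add]; exact Submodule.add_mem _ ht ht'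
    have hmain : ∀ z : Zc H, z - algebraMap ℂ (Zc H) (p z) ∈ Ann.radical := by
      intro z
      obtain ⟨J, zd, hz, hzd⟩ := hom6 z
      rw [hz, map_sum, map_sum, ← Finset.sum_sub_distrib]
      refine Ideal.sum_mem _ fun d _ => ?_
      by_cases hd : d = 0
      · subst hd
        have h0 : ∀ s, Φ.γ s (zd 0) = zd 0 := by
          intro s
          rw [hzd, zpow_zero, Units.val_one, one_smul]
        obtain ⟨a, ha⟩ := hom1 (zd 0 : H) h0
        have h1 := hF (zd 0) a h0 ha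
        refine Ideal.le_radical (hkill _ fun e => ?_)
        have h2 := hact (zd 0) a ha e
        rw [h1] at h2
        have h3 : ((zd 0 - algebraMap ℂ (Zc H) (p (zd 0)) : Zc H) : H) ⊗ₜ[ℂ] e =
            (zd 0 : H) ⊗ₜ[ℂ] e - (1 : H) ⊗ₜ[ℂ] (p (zd 0) • e) := by
          rw [Subalgebra.coe_sub, TensorProduct.sub_tmul, TensorProduct.tmul_smul,
            TensorProduct.smul_tmul']
          congr 2
          exact Algebra.algebraMap_eq_smul_one (p (zd 0))
        rw [h3]
        exact h2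
      · have hpz : p (zd d) = 0 := by
          have h1 := hp two (zd d) (((two ^ d : ℂˣ) : ℂ) • zd d) (by
            rw [hzd]
            rfl)
          rw [map_smul] at h1
          have h2 : (((two ^ d : ℂˣ) : ℂ) - 1) * p (zd d) = 0 := by
            rw [sub_mul, one_mul]
            exact sub_eq_zero.2 h1
          rcases mul_eq_zero.1 h2 with h3 | h3
          · exfalso
            apply hd
            refine two_zpow_inj (k := d) (d := 0) ?_
            rw [zpow_zero, Units.val_one]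
            exact sub_eq_zero.1 h3
          · exact h3
        rw [hpz, map_zero, sub_zero]
        have hk : (zd d : H) ∈ Hk Φ d := mem_Hk Φ (hzd d)
        refine ⟨n * Fintype.card W + 1, hkill _ fun e => ?_⟩
        have h1 := central_pow Φ ρE hys (hcen (zd d)) hk (n * Fintype.card W + 1) e
        rw [Subalgebra.coe_pow]
        refine Sm_le Φ ρE ?_ h1
        rcases lt_or_gt_of_ne hd with hd | hd
        · left
          have h2 : (0 : ℤ) < ((n * Fintype.card W + 1 : ℕ) : ℤ) := by positivity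
          exact mul_neg_of_pos_of_neg h2 hd
        · right
          have h2 : (1 : ℤ) ≤ d := hd
          have h3 : (0 : ℤ) ≤ ((n * Fintype.card W + 1 : ℕ) : ℤ) := by positivity
          have h4 := mul_le_mul_of_nonneg_left h2 h3
          push_cast at h4 ⊢
          linarith
    intro z
    obtain ⟨N, hN⟩ := hmain z
    refine ⟨N, fun m => ?_⟩
    have h1 := hN m
    rw [Subalgebra.coe_pow, Subalgebra.coe_sub] at h1
    exact h1

end

end Pool.Agent.V5helper98.CM.BV
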