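import Mathlib
import Pool.Agent.V5helper32.CM.Stm

/-!
# Job DEV
-/

set_option autoImplicit false
set_option linter.unusedSectionVars false
set_option linter.unusedVariables false

namespace Pool.Agent.V5helper98.CM

open Pool.Agent.V5helper32.CM MvPolynomial

section avg

variable {V : Type} [AddCommGroup V] [Module ℂ V]

/-- Decomposition into eigenvectors. -/
theorem avg (T : V →ₗ[ℂ] V) (n : ℕ) (hn : 0 < n) (hT : ∀ v, (T ^ n) v = v) (v : V) :
    ∃ (w : ℕ → V) (ζ : ℕ → ℂ), v = ∑ j ∈ Finset.range n, w j ∧ (∀ j, T (w j) = ζ j • w j) ∧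
      ζ 0 = 1 ∧ ∀ j, 0 < j → j < n → ζ j ≠ 1 := by
  let ω : ℂ := Complex.exp (2 * Real.pi * Complex.I / n)
  have hω : IsPrimitiveRoot ω n := Complex.isPrimitiveRoot_exp n hn.ne'
  have hω0 : ω ≠ 0 := hω.ne_zero hn.ne'
  have hn0 : (n : ℂ) ≠ 0 := by exact_mod_cast hn.ne'
  refine ⟨fun j => (n : ℂ)⁻¹ • ∑ k ∈ Finset.range n, ((ω ^ j)⁻¹) ^ k • (T ^ k) v, fun j => ω ^ j,
    ?_, ?_, pow_zero _, ?_⟩
  · have h1 : ∀ k ∈ Finset.range n, ∑ j ∈ Finset.range n, ((ω ^ j)⁻¹) ^ k • (T ^ k) v =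
        if k = 0 then (n : ℂ) • v else 0 := by
      intro k hk
      rw [← Finset.sum_smul]
      have h2 : ∀ j ∈ Finset.range n, ((ω ^ j)⁻¹) ^ k = ((ω ^ k)⁻¹) ^ j := by
        intro j _
        rw [inv_pow, inv_pow, ← pow_mul, ← pow_mul, mul_comm]
      rw [Finset.sum_congr rfl h2]
      split_ifs with h0
      · subst h0
        simp
      · have h3 : (ω ^ k)⁻¹ ≠ 1 := by
          rw [Ne, inv_eq_one]
          exact hω.pow_ne_one_of_pos_of_lt h0 (Finset.mem_range.1 hk)
        have h4 := geom_sum_mul ((ω ^ k)⁻¹) n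
        rw [inv_pow, ← pow_mul, mul_comm k n, pow_mul, hω.pow_eq_one, one_pow, inv_one,
          sub_self] at h4
        rcases mul_eq_zero.1 h4 with h5 | h5
        · rw [h5, zero_smul]
        · exact absurd (sub_eq_zero.1 h5) h3
    rw [← Finset.smul_sum, Finset.sum_comm, Finset.sum_congr rfl h1,
      Finset.sum_ite_eq' (Finset.range n) 0, if_pos (Finset.mem_range.2 hn), smul_smul,
      inv_mul_cancel₀ hn0, one_smul]
  · intro j
    have hj0 : ω ^ j ≠ 0 := pow_ne_zero _ hω0
    rw [map_smul, map_sum, smul_comm (ω ^ j)]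
    congr 1
    have h1 : ∀ k ∈ Finset.range n, T (((ω ^ j)⁻¹) ^ k • (T ^ k) v) =
        ω ^ j • (((ω ^ j)⁻¹) ^ (k + 1) • (T ^ (k + 1)) v) := by
      intro k _
      rw [map_smul, smul_smul, pow_succ' (ω ^ j)⁻¹, ← mul_assoc, mul_inv_cancel₀ hj0, one_mul,
        pow_succ' T]
      rfl
    rw [Finset.sum_congr rfl h1, ← Finset.smul_sum]
    congr 1
    have h2 := Finset.sum_range_succ (fun k => ((ω ^ j)⁻¹) ^ k • (T ^ k) v) n
    have h3 := Finset.sum_range_succ' (fun k => ((ω ^ j)⁻¹) ^ k • (T ^ k) v) n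
    have h4 : ((ω ^ j)⁻¹) ^ n • (T ^ n) v = v := by
      rw [hT, inv_pow, ← pow_mul, mul_comm j n, pow_mul, hω.pow_eq_one, one_pow, inv_one, one_smul]
    have h5 : ((ω ^ j)⁻¹) ^ 0 • (T ^ 0) v = v := by
      rw [pow_zero, pow_zero, one_smul]
      rfl
    rw [h2, h4] at h3
    simp only [h5] at h3
    exact (add_right_cancel h3).symm
  · intro j h0 hj
    exact hω.pow_ne_one_of_pos_of_lt h0.ne' hj

end avg

section skew

variable {Z : Type} [CommRing Z] [Algebra ℂ Z] {τ : Z ≃ₐ[ℂ] Z} {Λ : Type} [Ring Λ] [Algebra ℂ Λ]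
  (s : Skew Z τ Λ)

theorem central_of_fixed {z : Z} (hz : τ z = z) (l : Λ) : s.ι z * l = l * s.ι z := by
  obtain ⟨c, rfl⟩ := s.gen l
  have h1 : Commute (s.ι z) s.t := by
    have h2 := s.comm z
    rw [hz] at h2
    exact h2.symm
  rw [Finset.mul_sum, Finset.sum_mul]
  refine Finset.sum_congr rfl fun k _ => ?_
  have h3 : s.ι z * s.t ^ k = s.t ^ k * s.ι z := (h1.pow_right k).eq
  rw [mul_assoc, ← h3, ← mul_assoc, ← mul_assoc, ← map_mul, ← map_mul, mul_comm z]

theorem t_pow_eig {u : Z} {ζ : ℂ} (hu : τ u = ζ • u) (k : ℕ) :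
    s.t ^ k * s.ι u = ζ ^ k • (s.ι u * s.t ^ k) := by
  induction k with
  | zero => simp
  | succ k ih =>
    rw [pow_succ, mul_assoc, s.comm, hu, map_smul, smul_mul_assoc, mul_smul_comm, ← mul_assoc, ih,
      smul_mul_assoc, mul_assoc, smul_smul, pow_succ, mul_comm ζ]

theorem eig_comm {u : Z} {ζ : ℂ} (hu : τ u = ζ • u) (l : Λ) : ∃ l', l * s.ι u = s.ι u * l' := by
  obtain ⟨c, rfl⟩ := s.gen l
  refine ⟨∑ k ∈ Finset.range s.n, ζ ^ k • (s.ι (c k) * s.t ^ k), ?_⟩
  rw [Finset.sum_mul, Finset.mul_sum]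
  refine Finset.sum_congr rfl fun k _ => ?_
  rw [mul_assoc, t_pow_eig s hu, mul_smul_comm, mul_smul_comm, ← mul_assoc, ← mul_assoc,
    ← map_mul, ← map_mul, mul_comm u]

variable {V : Type} [AddCommGroup V] [Module ℂ V] [Module Λ V] [IsScalarTower ℂ Λ V]

theorem pow_eig {t : Λ} {m : V} {η : ℂ} (h : t • m = η • m) (k : ℕ) : t ^ k • m = η ^ k • m := by
  induction k with
  | zero => simp
  | succ k ih => rw [pow_succ, mul_smul, h, smul_comm, ih, smul_smul, pow_succ, mul_comm]

theorem cyclic {m : V} {η : ℂ} (h : s.t • m = η • m) (l : Λ) : ∃ z : Z, l • m = s.ι z • m := by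
  obtain ⟨c, rfl⟩ := s.gen l
  refine ⟨∑ k ∈ Finset.range s.n, η ^ k • c k, ?_⟩
  rw [map_sum, Finset.sum_smul, Finset.sum_smul]
  refine Finset.sum_congr rfl fun k _ => ?_
  rw [mul_smul, pow_eig h, map_smul, smul_assoc, smul_comm]

end skew

section main

variable {Z : Type} [CommRing Z] [Algebra ℂ Z] {τ : Z ≃ₐ[ℂ] Z} {Λ : Type} [Ring Λ] [Algebra ℂ Λ]
  (s : Skew Z τ Λ) {r : ℕ} (a : MvPolynomial (Fin r) ℂ →ₐ[ℂ] Z)

/-- The list of parameters. -/
noncomputable abbrev xsL : List Λ := List.ofFn fun i => s.ι (a (X i))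

variable {a}

theorem cenL (ha : ∀ b, τ (a b) = a b) : CenL (xsL s a) := by
  intro x hx l
  obtain ⟨i, rfl⟩ := List.mem_ofFn.1 hx
  exact central_of_fixed s (ha _) l

/-- Twisted isomorphisms. -/
theorem scale (hECMP : S_ECMP) (hPHI : S_PHI) (ha : ∀ b, τ (a b) = a b) (M M' : Type)
    [AddCommGroup M] [Module ℂ M] [Module Λ M] [IsScalarTower ℂ Λ M] [AddCommGroup M']
    [Module ℂ M'] [Module Λ M'] [IsScalarTower ℂ Λ M'] (ψ : M ≃ₗ[ℂ] M') (η : ℂ) (hη : η ≠ 0)
    (h1 : ∀ z m, ψ (s.ι z • m) = s.ι z • ψ m) (h2 : ∀ m, ψ (s.t • m) = η • s.t • ψ m)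
    (p : Z →ₐ[ℂ] ℂ) :
    EE (phi s.ι p s.t) (xsL s a) M = η * EE (phi s.ι p s.t) (xsL s a) M' := by
  let l : Option Z → Λ := fun k => k.elim s.t s.ι
  let l' : Option Z → Λ := fun k => k.elim (η • s.t) s.ι
  let ks : List (Option Z) := List.ofFn fun i => some (a (X i))
  have e1 : ks.map l = xsL s a := by
    change (List.ofFn fun i => some (a (X i))).map l = _
    rw [List.map_ofFn]
    rfl
  have e2 : ks.map l' = xsL s a := by
    change (List.ofFn fun i => some (a (X i))).map l' = _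
    rw [List.map_ofFn]
    rfl
  have h3 := hECMP Λ Λ (Option Z) l l' η (phi s.ι p s.t) (phi s.ι p s.t) (by
    intro M M' _ _ _ _ _ _ _ _ ψ hψ
    refine hPHI.2 Z Z Λ Λ s.ι s.t s.ι s.t id p p η M M' ψ Function.surjective_id (fun z => rfl)
      hη (fun z m => hψ (some z) m) fun m => ?_
    have h4 := hψ none m
    change ψ (s.t • m) = (η • s.t) • ψ m at h4
    rw [h4, smul_assoc]) ks (by rw [e1]; exact cenL s ha) (by rw [e2]; exact cenL s ha) M M' ψ (by
    intro k m
    cases k with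
    | none =>
      change ψ (s.t • m) = (η • s.t) • ψ m
      rw [h2, smul_assoc]
    | some z => exact h1 z m)
  rw [e1, e2] at h3
  exact h3

section

variable {V : Type} [AddCommGroup V] [Module ℂ V] [Module Λ V] [IsScalarTower ℂ Λ V]

/-- The annihilator in `Z`. -/
def annZ (m : V) : Ideal Z where
  carrier := {z | s.ι z • m = 0}
  add_mem' := by
    intro x y hx hy
    change s.ι (x + y) • m = 0
    rw [map_add, add_smul, hx, hy, add_zero]
  zero_mem' := by
    change s.ι 0 • m = 0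
    rw [map_zero, zero_smul]
  smul_mem' := by
    intro c x hx
    change s.ι (c * x) • m = 0
    rw [map_mul, mul_smul, hx, smul_zero]

theorem mem_annZ {m : V} {z : Z} : z ∈ annZ s m ↔ s.ι z • m = 0 := Iff.rfl

/-- Some nonzero parameter polynomial maps `y` into the image of `u`. -/
theorem torsion (ha : ∀ b, τ (a b) = a b) (hV : FG (xsL s a) V) (u : Z)
    (hinj : ∀ y : V, s.ι u • y = 0 → y = 0) :
    ∃ b : MvPolynomial (Fin r) ℂ, b ≠ 0 ∧ ∀ y : V, ∃ y' : V, s.ι (a b) • y = s.ι u • y' := by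
  classical
  let B := MvPolynomial (Fin r) ℂ
  let f : B →+* Λ := (s.ι.comp a).toRingHom
  let _ : Module B V := Module.compHom V f
  have hsm : ∀ (b : B) (y : V), b • y = s.ι (a b) • y := fun _ _ => rfl
  have htow : IsScalarTower ℂ B V := ⟨fun c b y => by
    rw [hsm, hsm, map_smul, map_smul, smul_assoc]⟩
  have hfin : Module.Finite B V := by
    obtain ⟨S, hS⟩ := hV
    refine ⟨S, ?_⟩
    let N : Submodule ℂ V := (Submodule.span B (S : Set V)).restrictScalars ℂ
    have h1 : N = ⊤ := by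
      refine hS N (fun v hv => Submodule.subset_span hv) fun x hx m hm => ?_
      obtain ⟨i, rfl⟩ := List.mem_ofFn.1 hx
      exact Submodule.smul_mem (Submodule.span B (S : Set V)) (X i : B) hm
    rw [eq_top_iff]
    intro v _
    have h2 : v ∈ N := by
      rw [h1]
      trivial
    exact h2
  let U : Module.End B V :=
    { toFun := fun y => s.ι u • y
      map_add' := fun x y => smul_add _ _ _
      map_smul' := fun b y => by
        change s.ι u • s.ι (a b) • y = s.ι (a b) • s.ι u • y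
        rw [← mul_smul, ← mul_smul, ← map_mul, ← map_mul, mul_comm] }
  have hU : ∀ y, U y = s.ι u • y := fun _ => rfl
  obtain ⟨P, hP, hPU⟩ := LinearMap.exists_monic_and_aeval_eq_zero B U
  have hUinj : Function.Injective U := by
    rw [injective_iff_map_eq_zero]
    exact hinj
  obtain ⟨g, hg, hnd⟩ := Polynomial.exists_eq_pow_rootMultiplicity_mul_and_not_dvd P hP.ne_zero 0
  rw [map_zero, sub_zero] at hg hnd
  have hg0 : g.coeff 0 ≠ 0 := fun h => hnd (Polynomial.X_dvd_iff.2 h)
  have hgU : ∀ y, Polynomial.aeval U g y = 0 := by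
    intro y
    have h1 : ∀ (k : ℕ) (y : V), (U ^ k) y = 0 → y = 0 := by
      intro k
      induction k with
      | zero => intro y hy; exact hy
      | succ k ih =>
        intro y hy
        rw [pow_succ'] at hy
        exact ih y (hUinj (by rw [map_zero]; exact hy))
    apply h1 (Polynomial.rootMultiplicity 0 P)
    have h2 : Polynomial.aeval U P y = 0 := by rw [hPU]; rfl
    rw [hg, map_mul, map_pow, Polynomial.aeval_X] at h2
    exact h2
  refine ⟨g.coeff 0, hg0, fun y => ⟨-(Polynomial.aeval U g.divX y), ?_⟩⟩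
  have h1 := hgU y
  rw [← Polynomial.divX_mul_X_add g, map_add, map_mul, Polynomial.aeval_X, Polynomial.aeval_C] at h1
  have h2 : (Polynomial.aeval U g.divX * U) y = s.ι u • Polynomial.aeval U g.divX y := by
    have h3 : Polynomial.aeval U g.divX * U = U * Polynomial.aeval U g.divX := by
      have h4 : Commute (Polynomial.aeval U g.divX) (Polynomial.aeval U (Polynomial.X : Polynomial B)) := by
        rw [Commute, SemiconjBy, ← map_mul, ← map_mul, mul_comm]
      rw [Polynomial.aeval_X] at h4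
      exact h4.eq
    rw [h3]
    rfl
  have h3 : (Polynomial.aeval U g.divX * U) y + g.coeff 0 • y = 0 := h1
  rw [h2, hsm] at h3
  rw [smul_neg]
  exact eq_neg_of_add_eq_zero_right h3

end

section

variable {V : Type} [AddCommGroup V] [Module ℂ V] [Module Λ V] [IsScalarTower ℂ Λ V]

theorem eta_ne {m : V} (hm : m ≠ 0) {η : ℂ} (h : s.t • m = η • m) : η ≠ 0 := by
  intro h0
  have h1 := pow_eig h s.n
  rw [s.tn, one_smul, h0, zero_pow s.npos.ne', zero_smul] at h1
  exact hm h1

/-- The submodule `u V` for an eigenvector `u`. -/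
def mulSub (u : Z) (ζ : ℂ) (hu : τ u = ζ • u) (V : Type) [AddCommGroup V] [Module ℂ V]
    [Module Λ V] [IsScalarTower ℂ Λ V] : Submodule Λ V where
  carrier := {x | ∃ y : V, x = s.ι u • y}
  add_mem' := by
    rintro _ _ ⟨y, rfl⟩ ⟨y', rfl⟩
    exact ⟨y + y', (smul_add _ _ _).symm⟩
  zero_mem' := ⟨0, (smul_zero _).symm⟩
  smul_mem' := by
    rintro l _ ⟨y, rfl⟩
    obtain ⟨l', hl'⟩ := eig_comm s hu l
    exact ⟨l' • y, by rw [← mul_smul, hl', mul_smul]⟩

/-- Multiplication by an injective eigenvector with eigenvalue different from one: the Euler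
characteristic vanishes. -/
theorem zero_of_eig (hFG : S_FG) (hECMP : S_ECMP) (hEADD : S_EADD) (hETOR : S_ETOR)
    (hPHI : S_PHI) (ha : ∀ b, τ (a b) = a b) (hV : FG (xsL s a) V) {u : Z} {ζ : ℂ}
    (hu : τ u = ζ • u) (hζ : ζ ≠ 1) (hζ0 : ζ ≠ 0) (hinj : ∀ y : V, s.ι u • y = 0 → y = 0)
    (p : Z →ₐ[ℂ] ℂ) (hp : ∀ z, p (τ z) = p z) : EE (phi s.ι p s.t) (xsL s a) V = 0 := by
  classical
  obtain ⟨hiso, hadd, -⟩ := hPHI.1 Z τ Λ s p hp
  have hgood := (hFG Λ).1
  let N : Submodule Λ V := mulSub s u ζ hu V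
  have hadd1 := hEADD Λ (phi s.ι p s.t) hiso hadd (FGp Λ) hgood (xsL s a) (cenL s ha) V hV N
  have hquo : FG (xsL s a) (V ⧸ N) := hgood.quo (xsL s a) (cenL s ha) V N hV
  -- the quotient is torsion
  obtain ⟨b, hb, hbV⟩ := torsion s ha hV u hinj
  have h1 : EE (phi s.ι p s.t) (xsL s a) (V ⧸ N) = 0 := by
    refine hETOR Λ (phi s.ι p s.t) hiso hadd r (s.ι.comp a) (fun q l =>
      central_of_fixed s (ha q) l) (V ⧸ N) hquo b hb fun m => ?_
    obtain ⟨y, rfl⟩ := N.mkQ_surjective m
    rw [← map_smul]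
    refine (Submodule.Quotient.mk_eq_zero N).2 ?_
    obtain ⟨y', hy'⟩ := hbV y
    exact ⟨y', hy'⟩
  -- the isomorphism
  let f : V →ₗ[ℂ] N :=
    { toFun := fun y => ⟨s.ι u • y, y, rfl⟩
      map_add' := fun x y => Subtype.ext (smul_add _ _ _)
      map_smul' := fun c y => Subtype.ext (by
        change s.ι u • c • y = c • s.ι u • y
        rw [smul_comm]) }
  have hf : Function.Bijective f := by
    constructor
    · rw [injective_iff_map_eq_zero]
      intro y hy
      exact hinj y (Subtype.ext_iff.1 hy)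
    · rintro ⟨_, y, rfl⟩
      exact ⟨y, rfl⟩
  let ψ : V ≃ₗ[ℂ] N := LinearEquiv.ofBijective f hf
  have h2 := scale s hECMP hPHI ha V N ψ ζ⁻¹ (inv_ne_zero hζ0) (fun z m => Subtype.ext (by
      change s.ι u • s.ι z • m = s.ι z • s.ι u • m
      rw [← mul_smul, ← mul_smul, ← map_mul, ← map_mul, mul_comm])) (fun m => Subtype.ext (by
      change s.ι u • s.t • m = ζ⁻¹ • s.t • s.ι u • m
      rw [← mul_smul s.t, s.comm, hu, map_smul, smul_mul_assoc, smul_assoc, smul_smul ζ⁻¹ ζ,
        inv_mul_cancel₀ hζ0, one_smul, mul_smul])) p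
  rw [h1, add_zero] at hadd1
  rw [← hadd1] at h2
  have h3 : (1 - ζ⁻¹) * EE (phi s.ι p s.t) (xsL s a) V = 0 := by
    rw [sub_mul, one_mul, ← h2, sub_self]
  rcases mul_eq_zero.1 h3 with h4 | h4
  · exfalso
    apply hζ
    rw [sub_eq_zero] at h4
    rw [← inv_inv ζ, ← h4, inv_one]
  · exact h4

/-- The module generated by an eigenvector whose annihilator is maximal. -/
theorem cyc (hFG : S_FG) (hECMP : S_ECMP) (hEADD : S_EADD) (hETOR : S_ETOR)
    (hPHI : S_PHI) (ha : ∀ b, τ (a b) = a b) (Q : Ideal Z)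
    (hQ : ∀ q : Ideal Z, q.IsPrime → (∀ z, τ z - z ∈ q) → (∀ b, a b ∈ q → b = 0) → q = Q)
    (D : Type) [AddCommGroup D] [Module ℂ D] [Module Λ D] [IsScalarTower ℂ Λ D] (d : D)
    (hgen : ∀ v : D, ∃ z : Z, v = s.ι z • d) (hann : ∀ z : Z, s.ι z • d = 0 ↔ z ∈ Q)
    (htd : s.t • d = d) (hV : FG (xsL s a) V) {m : V} (hm : m ≠ 0) {η : ℂ}
    (hη : s.t • m = η • m)
    (hmax : ∀ (m' : V) (η' : ℂ), m' ≠ 0 → s.t • m' = η' • m' →
      (∀ z, s.ι z • m = 0 → s.ι z • m' = 0) → ∀ z, s.ι z • m' = 0 → s.ι z • m = 0) :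
    ∃ c : ℂ, ∀ p : Z →ₐ[ℂ] ℂ, (∀ z, p (τ z) = p z) →
      EE (phi s.ι p s.t) (xsL s a) (Submodule.span Λ {m}) =
        c * EE (phi s.ι p s.t) (xsL s a) D := by
  classical
  let M₁ : Submodule Λ V := Submodule.span Λ {m}
  have hgood := (hFG Λ).1
  have hM₁ : FG (xsL s a) M₁ := hgood.sub (xsL s a) (cenL s ha) V M₁ hV
  let m₁ : M₁ := ⟨m, Submodule.mem_span_singleton_self m⟩
  have hall : ∀ y : M₁, ∃ z : Z, y = s.ι z • m₁ := by
    rintro ⟨y, hy⟩
    obtain ⟨l, rfl⟩ := Submodule.mem_span_singleton.1 hy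
    obtain ⟨z, hz⟩ := cyclic s hη l
    exact ⟨z, Subtype.ext hz⟩
  have hηne := eta_ne s hm hη
  -- the property (*)
  have star : ∀ (u : Z) (ζ : ℂ), τ u = ζ • u → s.ι u • m ≠ 0 → ∀ z, s.ι (u * z) • m = 0 →
      s.ι z • m = 0 := by
    intro u ζ hu hum z hz
    refine hmax (s.ι u • m) (ζ * η) hum ?_ (fun z hz => ?_) z ?_
    · rw [← mul_smul s.t, s.comm, hu, map_smul, smul_mul_assoc, smul_assoc, mul_smul, hη,
        smul_comm (s.ι u) η m, smul_smul]
    · rw [← mul_smul, ← map_mul, mul_comm, map_mul, mul_smul, hz, smul_zero]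
    · rw [← mul_smul, ← map_mul, mul_comm]
      exact hz
  by_cases hb : ∃ (u : Z) (ζ : ℂ), τ u = ζ • u ∧ ζ ≠ 1 ∧ s.ι u • m ≠ 0
  · -- case b
    obtain ⟨u, ζ, hu, hζ, hum⟩ := hb
    refine ⟨0, fun p hp => ?_⟩
    rw [zero_mul]
    have hζ0 : ζ ≠ 0 := by
      intro h0
      rw [h0, zero_smul] at hu
      have h1 : u = 0 := τ.injective (by rw [hu, map_zero])
      apply hum
      rw [h1, map_zero, zero_smul]
    refine zero_of_eig s hFG hECMP hEADD hETOR hPHI ha hM₁ hu hζ hζ0 (fun y hy => ?_) p hp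
    obtain ⟨z, rfl⟩ := hall y
    have h1 : s.ι u • s.ι z • m = 0 := Subtype.ext_iff.1 hy
    refine Subtype.ext (star u ζ hu hum z ?_)
    rw [map_mul, mul_smul]
    exact h1
  · push Not at hb
    by_cases hA : ∃ b : MvPolynomial (Fin r) ℂ, b ≠ 0 ∧ s.ι (a b) • m = 0
    · -- case a
      obtain ⟨b, hb0, hbm⟩ := hA
      refine ⟨0, fun p hp => ?_⟩
      rw [zero_mul]
      obtain ⟨hiso, hadd, -⟩ := hPHI.1 Z τ Λ s p hp
      refine hETOR Λ (phi s.ι p s.t) hiso hadd r (s.ι.comp a) (fun q l =>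
        central_of_fixed s (ha q) l) M₁ hM₁ b hb0 fun y => ?_
      obtain ⟨z, rfl⟩ := hall y
      refine Subtype.ext ?_
      change s.ι (a b) • s.ι z • m = 0
      rw [← mul_smul, ← map_mul, mul_comm, map_mul, mul_smul, hbm, smul_zero]
    · -- case c
      push Not at hA
      have hdec : ∀ z : Z, ∃ z₀ : Z, τ z₀ = z₀ ∧ s.ι (z - z₀) • m = 0 := by
        intro z
        have hτn : ∀ v : Z, (τ.toLinearMap ^ s.n) v = v := by
          intro v
          have h1 := s.τn v
          have h2 : ∀ (k : ℕ) (v : Z), (τ.toLinearMap ^ k) v = (τ ^ k) v := by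
            intro k
            induction k with
            | zero => intro v; rfl
            | succ k ih =>
              intro v
              rw [pow_succ', pow_succ']
              change τ ((τ.toLinearMap ^ k) v) = τ ((τ ^ k) v)
              rw [ih]
          rw [h2]
          exact h1
        obtain ⟨w, ζ, h1, h2, h3, h4⟩ := avg τ.toLinearMap s.n s.npos hτn z
        refine ⟨w 0, ?_, ?_⟩
        · have h5 := h2 0
          rw [h3, one_smul] at h5
          exact h5
        · obtain ⟨k, hk⟩ := Nat.exists_eq_succ_of_ne_zero s.npos.ne'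
          have h5 : z - w 0 = ∑ j ∈ Finset.range k, w (j + 1) := by
            rw [hk, Finset.sum_range_succ'] at h1
            rw [h1, add_sub_cancel_right]
          rw [h5, map_sum, Finset.sum_smul]
          refine Finset.sum_eq_zero fun j hj => ?_
          refine hb (w (j + 1)) (ζ (j + 1)) (h2 (j + 1)) (h4 (j + 1) (Nat.succ_pos j) ?_)
          have := Finset.mem_range.1 hj
          omega
      have hq : annZ s m = Q := by
        refine hQ (annZ s m) ?_ ?_ ?_
        · refine ⟨?_, ?_⟩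
          · intro h1
            have h2 : (1 : Z) ∈ annZ s m := by rw [h1]; trivial
            rw [mem_annZ, map_one, one_smul] at h2
            exact hm h2
          · intro u z huz
            rw [mem_annZ] at huz
            by_cases hu : u ∈ annZ s m
            · exact Or.inl hu
            · right
              obtain ⟨u₀, h1, h2⟩ := hdec u
              have h3 : s.ι u₀ • m ≠ 0 := by
                intro h4
                apply hu
                rw [mem_annZ]
                have h5 : u = (u - u₀) + u₀ := by ring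
                rw [h5, map_add, add_smul, h2, h4, add_zero]
              refine star u₀ 1 (by rw [one_smul]; exact h1) h3 z ?_
              have h5 : u₀ * z = u * z - z * (u - u₀) := by ring
              rw [h5, map_sub, sub_smul, huz, map_mul, mul_smul, h2, smul_zero, sub_zero]
        · intro z
          rw [mem_annZ]
          obtain ⟨z₀, h1, h2⟩ := hdec z
          have h3 : τ z - z = τ (z - z₀) - (z - z₀) := by
            rw [map_sub, h1]
            ring
          have h4 : s.ι (τ (z - z₀)) • m = 0 := by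
            have h5 : s.ι (τ (z - z₀)) • s.t • m = 0 := by
              rw [← mul_smul, ← s.comm, mul_smul, h2, smul_zero]
            rw [hη, smul_comm, smul_eq_zero] at h5
            exact h5.resolve_left hηne
          rw [h3, map_sub, sub_smul, h4, h2, sub_zero]
        · intro b hb1
          by_contra hb0
          exact hA b hb0 hb1
      -- the isomorphism
      let f : Z →ₗ[ℂ] D :=
        { toFun := fun z => s.ι z • d
          map_add' := fun x y => by rw [map_add, add_smul]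
          map_smul' := fun c y => by
            change s.ι (c • y) • d = c • s.ι y • d
            rw [map_smul, smul_assoc] }
      let g : Z →ₗ[ℂ] M₁ :=
        { toFun := fun z => s.ι z • m₁
          map_add' := fun x y => by rw [map_add, add_smul]
          map_smul' := fun c y => by
            change s.ι (c • y) • m₁ = c • s.ι y • m₁
            rw [map_smul, smul_assoc] }
      have hfs : Function.Surjective f := fun v => by
        obtain ⟨z, hz⟩ := hgen v
        exact ⟨z, hz.symm⟩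
      have hgs : Function.Surjective g := fun v => by
        obtain ⟨z, hz⟩ := hall v
        exact ⟨z, hz.symm⟩
      have hker : LinearMap.ker f = LinearMap.ker g := by
        ext z
        rw [LinearMap.mem_ker, LinearMap.mem_ker]
        change s.ι z • d = 0 ↔ s.ι z • m₁ = 0
        rw [hann, ← hq, mem_annZ]
        exact ⟨fun h => Subtype.ext h, fun h => Subtype.ext_iff.1 h⟩
      let ψ : D ≃ₗ[ℂ] M₁ := (f.quotKerEquivOfSurjective hfs).symm.trans
        ((Submodule.quotEquivOfEq _ _ hker).trans (g.quotKerEquivOfSurjective hgs))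
      have hψ : ∀ z : Z, ψ (s.ι z • d) = s.ι z • m₁ := by
        intro z
        have h1 : (f.quotKerEquivOfSurjective hfs).symm (s.ι z • d) =
            (LinearMap.ker f).mkQ z := by
          rw [LinearEquiv.symm_apply_eq]
          rfl
        change (g.quotKerEquivOfSurjective hgs) ((Submodule.quotEquivOfEq _ _ hker)
          ((f.quotKerEquivOfSurjective hfs).symm (s.ι z • d))) = _
        rw [h1]
        rfl
      refine ⟨η, fun p hp => ?_⟩
      have h2 := scale s hECMP hPHI ha D M₁ ψ η⁻¹ (inv_ne_zero hηne) (fun z v => by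
        obtain ⟨z', rfl⟩ := hgen v
        rw [← mul_smul, ← map_mul, hψ, hψ, map_mul, mul_smul]) (fun v => by
        obtain ⟨z', rfl⟩ := hgen v
        have h3 : s.t • m₁ = η • m₁ := Subtype.ext hη
        rw [← mul_smul s.t, s.comm, mul_smul, htd, hψ, hψ, ← mul_smul s.t, s.comm, mul_smul, h3,
          smul_comm, smul_smul, inv_mul_cancel₀ hηne, one_smul]) p
      rw [h2, ← mul_assoc, mul_inv_cancel₀ hηne, one_mul]

end

end main

/-- **Job DEV.** -/
theorem t_DEV (hFG : S_FG) (hECMP : S_ECMP) (hEISO : S_EISO) (hEADD : S_EADD) (hETOR : S_ETOR)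
    (hPHI : S_PHI) : S_DEV := by
  classical
  intro Z _ _ _ τ Λ _ _ s r a ha Q hQ M _ _ _ _ D _ _ _ _ d hM hgen hann htd
  have hgood := (hFG Λ).1
  have hcen := cenL s ha
  have hnoeth : IsNoetherian Λ M := ((hFG Λ).2 (xsL s a) hcen M hM).1
  let G : Set (Submodule Λ M) := {N | ∃ c : ℂ, ∀ p : Z →ₐ[ℂ] ℂ, (∀ z, p (τ z) = p z) →
    EE (phi s.ι p s.t) (xsL s a) N = c * EE (phi s.ι p s.t) (xsL s a) D}
  have hbot : (⊥ : Submodule Λ M) ∈ G := by
    refine ⟨0, fun p hp => ?_⟩
    rw [zero_mul]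
    obtain ⟨hiso, hadd, -⟩ := hPHI.1 Z τ Λ s p hp
    refine hETOR Λ (phi s.ι p s.t) hiso hadd r (s.ι.comp a) (fun q l =>
      central_of_fixed s (ha q) l) (⊥ : Submodule Λ M)
      (hgood.sub (xsL s a) hcen M ⊥ hM) 1 one_ne_zero fun y => ?_
    exact Subsingleton.elim _ _
  obtain ⟨N, hN, hmaxN⟩ := (set_has_maximal_iff_noetherian.2 hnoeth) G ⟨⊥, hbot⟩
  by_cases htop : N = ⊤
  · obtain ⟨c, hc⟩ := hN
    refine ⟨c, fun p hp => ?_⟩
    obtain ⟨hiso, hadd, -⟩ := hPHI.1 Z τ Λ s p hp
    have h1 := hc p hp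
    rw [← h1]
    let e : N ≃ₗ[Λ] M := LinearEquiv.ofTop N htop
    exact (hEISO Λ (phi s.ι p s.t) hiso (xsL s a) N M e).symm
  · exfalso
    -- an eigenvector of the quotient
    have hV : FG (xsL s a) (M ⧸ N) := hgood.quo (xsL s a) hcen M N hM
    have hnt : ∃ v : M ⧸ N, v ≠ 0 := by
      obtain ⟨x, hx⟩ : ∃ x, x ∉ N := by
        by_contra h1
        push Not at h1
        exact htop (eq_top_iff.2 fun x _ => h1 x)
      exact ⟨N.mkQ x, fun h1 => hx ((Submodule.Quotient.mk_eq_zero N).1 h1)⟩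
    let S : Set (Ideal Z) := {q | ∃ (m : M ⧸ N) (η : ℂ), m ≠ 0 ∧ s.t • m = η • m ∧ q = annZ s m}
    have hS : S.Nonempty := by
      obtain ⟨v, hv⟩ := hnt
      let T : (M ⧸ N) →ₗ[ℂ] (M ⧸ N) := Algebra.lsmul ℂ ℂ (M ⧸ N) s.t
      have hT : ∀ v, (T ^ s.n) v = v := by
        intro v
        have h1 : T ^ s.n = Algebra.lsmul ℂ ℂ (M ⧸ N) (s.t ^ s.n) := (map_pow _ _ _).symm
        rw [h1, s.tn, map_one]
        rfl
      obtain ⟨w, ζ, h1, h2, -, -⟩ := avg T s.n s.npos hT v
      obtain ⟨j, hj⟩ : ∃ j, w j ≠ 0 := by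
        by_contra h3
        push Not at h3
        apply hv
        rw [h1]
        exact Finset.sum_eq_zero fun j _ => h3 j
      exact ⟨annZ s (w j), w j, ζ j, hj, h2 j, rfl⟩
    obtain ⟨q, ⟨m, η, hm, hη, rfl⟩, hqmax⟩ :=
      (set_has_maximal_iff_noetherian.2 (inferInstance : IsNoetherian Z Z)) S hS
    obtain ⟨c, hc⟩ := cyc s hFG hECMP hEADD hETOR hPHI ha Q hQ D d hgen hann htd hV hm hη
      (fun m' η' hm' hη' h1 z hz => by
        have h2 := hqmax (annZ s m') ⟨m', η', hm', hη', rfl⟩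
        by_contra h3
        apply h2
        refine lt_of_le_of_ne (fun z hz => h1 z hz) fun h4 => h3 ?_
        have h5 : z ∈ annZ s m := by
          rw [h4]
          exact hz
        exact h5)
    obtain ⟨c', hc'⟩ := hN
    let M₁ : Submodule Λ (M ⧸ N) := Submodule.span Λ {m}
    let N' : Submodule Λ M := M₁.comap N.mkQ
    have hle : N ≤ N' := by
      intro x hx
      change N.mkQ x ∈ M₁
      have h1 : N.mkQ x = 0 := (Submodule.Quotient.mk_eq_zero N).2 hx
      rw [h1]
      exact M₁.zero_mem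
    have hlt : N < N' := by
      refine lt_of_le_of_ne hle fun h1 => ?_
      obtain ⟨x, hx⟩ := N.mkQ_surjective m
      have h2 : x ∈ N' := by
        change N.mkQ x ∈ M₁
        rw [hx]
        exact Submodule.mem_span_singleton_self m
      rw [← h1] at h2
      apply hm
      rw [← hx]
      exact (Submodule.Quotient.mk_eq_zero N).2 h2
    refine hmaxN N' ⟨c' + c, fun p hp => ?_⟩ hlt
    obtain ⟨hiso, hadd, -⟩ := hPHI.1 Z τ Λ s p hp
    have hFGN' : FG (xsL s a) N' := hgood.sub (xsL s a) hcen M N' hM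
    have h1 := hEADD Λ (phi s.ι p s.t) hiso hadd (FGp Λ) hgood (xsL s a) hcen N' hFGN'
      (N.comap N'.subtype)
    have h2 := hEISO Λ (phi s.ι p s.t) hiso (xsL s a) (N.comap N'.subtype) N
      (Submodule.comapSubtypeEquivOfLe hle)
    let f : N' →ₗ[Λ] M₁ := LinearMap.codRestrict M₁ (N.mkQ ∘ₗ N'.subtype) (fun x => x.2)
    have hfs : Function.Surjective f := by
      rintro ⟨y, hy⟩
      obtain ⟨x, rfl⟩ := N.mkQ_surjective y
      exact ⟨⟨x, hy⟩, rfl⟩
    have hker : N.comap N'.subtype = LinearMap.ker f := by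
      ext x
      rw [LinearMap.mem_ker, Submodule.mem_comap]
      constructor
      · intro h3
        exact Subtype.ext ((Submodule.Quotient.mk_eq_zero N).2 h3)
      · intro h3
        exact (Submodule.Quotient.mk_eq_zero N).1 (Subtype.ext_iff.1 h3)
    have h3 := hEISO Λ (phi s.ι p s.t) hiso (xsL s a) (N' ⧸ N.comap N'.subtype) M₁
      ((Submodule.quotEquivOfEq _ _ hker).trans (f.quotKerEquivOfSurjective hfs))
    rw [h1, h2, h3, hc' p hp, hc p hp, add_mul]

end Pool.Agent.V5helper98.CM
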